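import Mathlib

set_option autoImplicit false

/-!
# The maximum size of distinct difference configurations in free groups, up to a constant factor

`m(n, d) = (2n - 1)^(d/3 + O(1))` as `d → ∞`, for every fixed `n ≥ 2`.

Lower bound.  Put `m = 2n - 1` and number the letters by `ZMod (m + 1)`.  A reduced word which starts
with a fixed letter is coded by labels in `{0, …, m - 1}`: the label of a letter is its position after
the forbidden letter.  For `k` with `6 k ≤ d` take the words with `3 k` labels which are the digits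
(lowest digit first) in base `m` of three numbers `x, y, z < m^k`, `x ≥ 1`, with
`z = x (y + m^k) + c` modulo a prime `Q` of size about `m^k`.  From a difference one reads off the
position where two words part and everything after it, except that the labels at this position are
only known up to a common shift modulo `m + 1`.  If the position is in the `x`-part then `y`, `z`
and hence `x` are known.  If it is in the `y`-part, eliminating `x` gives a bilinear relation which
has only the trivial solution.  The best `c` gives at least `m^(2k) / const` words.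

Upper bound.  The configuration lies in a ball of radius about `d / 2`; divide it into classes
according to the initial segments of length `d / 3` and use the Cauchy-Schwarz inequality.
-/

namespace Pool.Agent.Results.MP_db30a9_co.DDCOrder

open FreeGroup Finset

/-! ### words -/

section words

variable {A : Type*} [DecidableEq A]

lemma exists_common {B : Type*} [DecidableEq B] (u v : List B) : ∃ w a b : List B, u = w ++ a ∧ v = w ++ b ∧
    ∀ x ∈ a.head?, ∀ y ∈ b.head?, x ≠ y := by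
  induction u generalizing v with
  | nil => exact ⟨[], [], v, by simp, by simp, by simp⟩
  | cons x u ih =>
    cases v with
    | nil => exact ⟨[], x :: u, [], by simp, by simp, by simp⟩
    | cons y v =>
      by_cases hxy : x = y
      · subst hxy
        obtain ⟨w, a, b, h1, h2, h3⟩ := ih v
        exact ⟨x :: w, a, b, by simp [h1], by simp [h2], h3⟩
      · exact ⟨[], x :: u, y :: v, by simp, by simp, by
          intro p hp q hq
          simp only [List.head?_cons, Option.mem_def, Option.some.injEq] at hp hq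
          rw [← hp, ← hq]; exact hxy⟩

omit [DecidableEq A] in
lemma red_left {w a : List (A × Bool)} (h : IsReduced (w ++ a)) : IsReduced w := by
  unfold FreeGroup.IsReduced at h ⊢
  rw [List.isChain_append] at h
  exact h.1

omit [DecidableEq A] in
lemma red_right {w a : List (A × Bool)} (h : IsReduced (w ++ a)) : IsReduced a := by
  unfold FreeGroup.IsReduced at h ⊢
  rw [List.isChain_append] at h
  exact h.2.1

lemma isReduced_diff {w a b : List (A × Bool)} (ha : IsReduced (w ++ a)) (hb : IsReduced (w ++ b))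
    (hab : ∀ x ∈ a.head?, ∀ y ∈ b.head?, x ≠ y) : IsReduced (invRev a ++ b) := by
  have ha' : IsReduced a := red_right ha
  have hb' : IsReduced b := red_right hb
  have hia : IsReduced (invRev a) := by
    rw [isReduced_iff_reduce_eq] at ha' ⊢
    rw [reduce_invRev, ha']
  unfold FreeGroup.IsReduced
  rw [List.isChain_append]
  refine ⟨hia, hb', ?_⟩
  intro x hx y hy h1
  unfold invRev at hx
  rw [List.getLast?_reverse, List.head?_map] at hx
  simp only [Option.mem_def, Option.map_eq_some_iff] at hx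
  obtain ⟨z, hz, hzx⟩ := hx
  have hzy := hab z hz y hy
  rw [← hzx] at h1 ⊢
  simp only at h1 ⊢
  by_contra h2
  apply hzy
  ext1
  · exact h1
  · revert h2
    cases z.2 <;> cases y.2 <;> simp

omit [DecidableEq A] in
lemma mk_diff (w a b : List (A × Bool)) :
    (mk (w ++ a))⁻¹ * mk (w ++ b) = mk (invRev a ++ b) := by
  rw [← mul_mk, ← mul_mk, ← mul_mk, ← inv_mk, mul_inv_rev]
  group

lemma toWord_diff {w a b : List (A × Bool)} (ha : IsReduced (w ++ a)) (hb : IsReduced (w ++ b))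
    (hab : ∀ x ∈ a.head?, ∀ y ∈ b.head?, x ≠ y) :
    toWord ((mk (w ++ a))⁻¹ * mk (w ++ b)) = invRev a ++ b := by
  rw [mk_diff, toWord_mk]
  exact (isReduced_diff ha hb hab).reduce_eq

lemma norm_diff_le (w a b : List (A × Bool)) :
    ((mk (w ++ a))⁻¹ * mk (w ++ b)).norm ≤ a.length + b.length := by
  rw [mk_diff]
  refine norm_mk_le.trans ?_
  rw [List.length_append, invRev_length]

lemma norm_diff {w a b : List (A × Bool)} (ha : IsReduced (w ++ a)) (hb : IsReduced (w ++ b))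
    (hab : ∀ x ∈ a.head?, ∀ y ∈ b.head?, x ≠ y) :
    ((mk (w ++ a))⁻¹ * mk (w ++ b)).norm = a.length + b.length := by
  unfold FreeGroup.norm
  rw [toWord_diff ha hb hab, List.length_append, invRev_length]

/-! ### balls -/

open Classical in
/-- the reduced words of length at most `r` -/
noncomputable def ballW [Fintype A] : ℕ → Finset (List (A × Bool))
  | 0 => {[]}
  | r + 1 => insert [] ((ballW r).biUnion fun l =>
      (univ.filter (fun x : A × Bool => IsReduced (x :: l))).image (fun x => x :: l))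

lemma nil_mem_ballW [Fintype A] (r : ℕ) : ([] : List (A × Bool)) ∈ ballW r := by
  cases r with
  | zero => simp [ballW]
  | succ r => simp [ballW]

lemma mem_ballW [Fintype A] (r : ℕ) (l : List (A × Bool)) (h : IsReduced l) (hl : l.length ≤ r) :
    l ∈ ballW r := by
  induction r generalizing l with
  | zero =>
    have : l = [] := List.length_eq_zero_iff.1 (by omega)
    subst this
    exact nil_mem_ballW 0
  | succ r ih =>
    cases l with
    | nil => exact nil_mem_ballW _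
    | cons x l =>
      rw [ballW, mem_insert, mem_biUnion]
      right
      refine ⟨l, ih l (red_right (w := [x]) h) (by simpa using hl), ?_⟩
      rw [mem_image]
      exact ⟨x, by simpa using h, rfl⟩

lemma card_ballW [Fintype A] (m : ℕ) (hm : 3 ≤ m) (hA : 2 * Fintype.card A = m + 1) (r : ℕ) :
    (ballW (A := A) r).card + 1 ≤ 2 * m ^ r := by
  classical
  induction r with
  | zero => simp [ballW]
  | succ r ih =>
    have hcard : Fintype.card (A × Bool) = m + 1 := by
      rw [Fintype.card_prod, Fintype.card_bool]; omega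
    have h1 : (ballW (A := A) (r + 1)).card ≤
        1 + ∑ l ∈ ballW r, (univ.filter (fun x : A × Bool => IsReduced (x :: l))).card := by
      rw [ballW]
      refine (Finset.card_insert_le _ _).trans ?_
      rw [add_comm]
      gcongr
      refine Finset.card_biUnion_le.trans ?_
      gcongr with l hl
      exact Finset.card_image_le
    have h2 : ∀ l ∈ (ballW (A := A) r).erase [],
        (univ.filter (fun x : A × Bool => IsReduced (x :: l))).card ≤ m := by
      intro l hl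
      rw [mem_erase] at hl
      obtain ⟨y, l', rfl⟩ := List.exists_cons_of_ne_nil hl.1
      have h3 : univ.filter (fun x : A × Bool => IsReduced (x :: y :: l')) ⊆
          univ.erase ((y.1, !y.2) : A × Bool) := by
        intro x hx
        rw [mem_filter] at hx
        rw [mem_erase]
        refine ⟨?_, mem_univ _⟩
        rintro rfl
        have h4 := (isReduced_cons_cons.1 hx.2).1 rfl
        revert h4
        cases y.2 <;> simp
      refine (Finset.card_le_card h3).trans ?_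
      rw [Finset.card_erase_of_mem (mem_univ _), Finset.card_univ, hcard]
      omega
    have h5 : ∑ l ∈ ballW r, (univ.filter (fun x : A × Bool => IsReduced (x :: l))).card ≤
        (m + 1) + ((ballW (A := A) r).card - 1) * m := by
      rw [← Finset.add_sum_erase _ _ (nil_mem_ballW r)]
      gcongr
      · refine (Finset.card_le_univ _).trans ?_
        rw [hcard]
      · refine (Finset.sum_le_card_nsmul _ _ _ h2).trans ?_
        rw [Finset.card_erase_of_mem (nil_mem_ballW r), smul_eq_mul]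
    have h6 : 1 ≤ (ballW (A := A) r).card := Finset.card_pos.2 ⟨_, nil_mem_ballW r⟩
    obtain ⟨b, hb⟩ : ∃ b, (ballW (A := A) r).card = b + 1 := ⟨_, (Nat.sub_add_cancel h6).symm⟩
    rw [hb] at ih h5
    rw [pow_succ]
    have h7 : b * m + 2 * m ≤ 2 * m ^ r * m := by nlinarith
    simp only [Nat.add_sub_cancel] at h5
    nlinarith




/-! ### configurations -/

/-- `D` is a distinct difference configuration: the elements `g⁻¹ h`, for all ordered pairs `(g, h)`
of distinct elements of `D`, are pairwise distinct. -/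
def IsDDC (D : Finset (FreeGroup A)) : Prop :=
  ∀ g ∈ D, ∀ h ∈ D, ∀ g' ∈ D, ∀ h' ∈ D, g ≠ h → g' ≠ h' → g⁻¹ * h = g'⁻¹ * h' → g = g' ∧ h = h'

/-- `D` has diameter at most `d` in the word metric. -/
def DiamLE (D : Finset (FreeGroup A)) (d : ℕ) : Prop :=
  ∀ g ∈ D, ∀ h ∈ D, (g⁻¹ * h).norm ≤ d

/-- a set of diameter at most `d` lies in a ball of radius `(d + 1) / 2` -/
lemma exists_centre (D : Finset (FreeGroup A)) (d : ℕ) (hd : DiamLE D d) :
    ∃ c : FreeGroup A, ∀ u ∈ D, (c⁻¹ * u).norm ≤ (d + 1) / 2 := by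
  rcases D.eq_empty_or_nonempty with rfl | hne
  · exact ⟨1, by simp⟩
  obtain ⟨⟨g, h⟩, hgh, hmax⟩ := Finset.exists_max_image (D ×ˢ D) (fun p => (p.1⁻¹ * p.2).norm)
    (hne.product hne)
  rw [mem_product] at hgh
  simp only at hgh hmax
  have hδd : (g⁻¹ * h).norm ≤ d := hd g hgh.1 h hgh.2
  obtain ⟨w, hw⟩ : ∃ w, w = toWord (g⁻¹ * h) := ⟨_, rfl⟩
  obtain ⟨δ, hδ⟩ : ∃ δ, δ = w.length := ⟨_, rfl⟩
  have hnorm : (g⁻¹ * h).norm = δ := by rw [hδ, hw]; rfl
  have hmkw : mk w = g⁻¹ * h := by rw [hw]; exact mk_toWord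
  refine ⟨g * mk (w.take (δ / 2)), fun u hu => ?_⟩
  obtain ⟨v, hv⟩ : ∃ v, v = toWord (g⁻¹ * u) := ⟨_, rfl⟩
  have hmkv : mk v = g⁻¹ * u := by rw [hv]; exact mk_toWord
  have hvl : v.length ≤ δ := by
    have h1 := hmax (g, u) (mem_product.2 ⟨hgh.1, hu⟩)
    simp only at h1
    rw [hnorm] at h1
    rw [hv]; exact h1
  have hhu : (h⁻¹ * u).norm ≤ δ := by
    have h1 := hmax (h, u) (mem_product.2 ⟨hgh.2, hu⟩)
    simp only at h1
    rwa [hnorm] at h1
  obtain ⟨q, a, b, hwq, hvq, hab⟩ := exists_common w v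
  have hra : IsReduced (q ++ a) := by rw [← hwq, hw]; exact isReduced_toWord
  have hrb : IsReduced (q ++ b) := by rw [← hvq, hv]; exact isReduced_toWord
  have h2 : (h⁻¹ * u).norm = a.length + b.length := by
    rw [← norm_diff hra hrb hab, ← hwq, ← hvq, hmkw, hmkv]
    congr 1
    group
  have hδl : δ = q.length + a.length := by rw [hδ, hwq, List.length_append]
  have hvl' : v.length = q.length + b.length := by rw [hvq, List.length_append]
  have e1 : (g * mk (w.take (δ / 2)))⁻¹ * u = (mk (w.take (δ / 2)))⁻¹ * mk v := by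
    rw [hmkv]; group
  rw [e1]
  rcases le_or_gt (δ / 2) q.length with hc | hc
  · have h3 : w.take (δ / 2) = q.take (δ / 2) := by
      rw [hwq, List.take_append_of_le_length hc]
    have h4 : v = q.take (δ / 2) ++ (q.drop (δ / 2) ++ b) := by
      rw [← List.append_assoc, List.take_append_drop, hvq]
    have h5 := norm_diff_le (q.take (δ / 2)) [] (q.drop (δ / 2) ++ b)
    rw [← h4, List.append_nil, ← h3, List.length_append, List.length_drop, List.length_nil] at h5
    omega
  · have h3 : w.take (δ / 2) = q ++ a.take (δ / 2 - q.length) := by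
      rw [hwq, List.take_append, List.take_of_length_le hc.le]
    have h5 := norm_diff_le q (a.take (δ / 2 - q.length)) b
    rw [← hvq, ← h3] at h5
    have h6 := List.length_take_le (δ / 2 - q.length) a
    omega

/-- two elements of the ball of radius `R` with the same initial segment of length `l` -/
lemma norm_of_take_eq (u v : FreeGroup A) (R l : ℕ) (hu : u.norm ≤ R) (hv : v.norm ≤ R)
    (h : u.toWord.take l = v.toWord.take l) : (u⁻¹ * v).norm ≤ 2 * (R - l) := by
  have h1 := norm_diff_le (u.toWord.take l) (u.toWord.drop l) (v.toWord.drop l)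
  rw [List.take_append_drop] at h1
  rw [h, List.take_append_drop, mk_toWord, mk_toWord, List.length_drop, List.length_drop] at h1
  have hu' : u.toWord.length ≤ R := hu
  have hv' : v.toWord.length ≤ R := hv
  omega

/-- the counting inequality behind the upper bound -/
lemma ddc_sq_le [Fintype A] (m : ℕ) (hm : 3 ≤ m) (hA : 2 * Fintype.card A = m + 1)
    (D : Finset (FreeGroup A)) (hD : IsDDC D) (d : ℕ) (hd : DiamLE D d) (l : ℕ) :
    D.card ^ 2 ≤ 2 * m ^ l * (D.card + 2 * m ^ (2 * ((d + 1) / 2 - l))) := by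
  classical
  obtain ⟨c, hc⟩ := exists_centre D d hd
  set P : FreeGroup A → List (A × Bool) := fun u => (toWord (c⁻¹ * u)).take l with hP
  set R := (d + 1) / 2 with hR
  set I := D.image P with hI
  have hIcard : I.card ≤ 2 * m ^ l := by
    have h1 : I ⊆ ballW l := by
      intro w hw
      rw [hI, mem_image] at hw
      obtain ⟨u, _, rfl⟩ := hw
      apply mem_ballW
      · have h9 := isReduced_toWord (x := c⁻¹ * u)
        rw [← List.take_append_drop l (toWord (c⁻¹ * u))] at h9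
        exact red_left h9
      · exact List.length_take_le _ _
    have h2 := Finset.card_le_card h1
    have h3 := card_ballW (A := A) m hm hA l
    omega
  set E := (D ×ˢ D).filter (fun p => P p.1 = P p.2) with hE
  have hEcard : E.card ≤ D.card + 2 * m ^ (2 * (R - l)) := by
    have h1 : (E.filter (fun p => p.1 = p.2)).card ≤ D.card := by
      apply Finset.card_le_card_of_injOn (fun p => p.1)
      · intro p hp
        rw [Finset.mem_coe, mem_filter, hE, mem_filter, mem_product] at hp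
        exact hp.1.1.1
      · intro p hp p' hp' h
        rw [Finset.mem_coe, mem_filter] at hp hp'
        simp only at h
        exact Prod.ext h (by rw [← hp.2, ← hp'.2, h])
    have h2 : (E.filter (fun p => ¬ p.1 = p.2)).card ≤ (ballW (A := A) (2 * (R - l))).card := by
      apply Finset.card_le_card_of_injOn (fun p => toWord (p.1⁻¹ * p.2))
      · intro p hp
        rw [Finset.mem_coe, mem_filter, hE, mem_filter, mem_product] at hp
        apply Finset.mem_coe.2
        apply mem_ballW _ _ isReduced_toWord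
        have h3 := norm_of_take_eq (c⁻¹ * p.1) (c⁻¹ * p.2) R l (hc _ hp.1.1.1) (hc _ hp.1.1.2)
          hp.1.2
        have h4 : (c⁻¹ * p.1)⁻¹ * (c⁻¹ * p.2) = p.1⁻¹ * p.2 := by group
        rw [h4] at h3
        exact h3
      · intro p hp p' hp' h
        rw [Finset.mem_coe, mem_filter, hE, mem_filter, mem_product] at hp hp'
        have h3 := toWord_injective h
        obtain ⟨h4, h5⟩ := hD _ hp.1.1.1 _ hp.1.1.2 _ hp'.1.1.1 _ hp'.1.1.2 hp.2 hp'.2 h3
        exact Prod.ext h4 h5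
    have h3 := card_ballW (A := A) m hm hA (2 * (R - l))
    have h4 := Finset.card_filter_add_card_filter_not (s := E) (fun p => p.1 = p.2)
    omega
  have hEsum : E.card = ∑ w ∈ I, (D.filter (fun u => P u = w)).card ^ 2 := by
    have h1 : Set.MapsTo (fun p : FreeGroup A × FreeGroup A => P p.1) (E : Set _) (I : Set _) := by
      intro p hp
      rw [Finset.mem_coe, hE, mem_filter, mem_product] at hp
      exact Finset.mem_coe.2 (mem_image_of_mem _ hp.1.1)
    rw [Finset.card_eq_sum_card_fiberwise h1]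
    apply Finset.sum_congr rfl
    intro w _
    rw [sq, ← Finset.card_product]
    congr 1
    ext ⟨u, v⟩
    simp only [hE, mem_filter, mem_product]
    constructor
    · rintro ⟨⟨⟨h2, h3⟩, h4⟩, h5⟩
      exact ⟨⟨h2, h5⟩, h3, by rw [← h4, h5]⟩
    · rintro ⟨⟨h2, h3⟩, h4, h5⟩
      exact ⟨⟨⟨h2, h4⟩, by rw [h3, h5]⟩, h3⟩
  have hDsum : D.card = ∑ w ∈ I, (D.filter (fun u => P u = w)).card :=
    Finset.card_eq_sum_card_image P D
  calc D.card ^ 2 = (∑ w ∈ I, (D.filter (fun u => P u = w)).card) ^ 2 := by rw [← hDsum]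
    _ ≤ I.card * ∑ w ∈ I, (D.filter (fun u => P u = w)).card ^ 2 := by
        have := sq_sum_le_card_mul_sum_sq (s := I)
          (f := fun w => (D.filter (fun u => P u = w)).card)
        exact_mod_cast this
    _ = I.card * E.card := by rw [hEsum]
    _ ≤ 2 * m ^ l * (D.card + 2 * m ^ (2 * (R - l))) := by gcongr

/-! ### coding of words by labels -/

/-- the inverse letter -/
def inv' (x : A × Bool) : A × Bool := (x.1, !x.2)

/-- the letters of the word with first letter `a` and labels `s` -/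
def letters {M : ℕ} (e : (A × Bool) ≃ ZMod M) (a : A × Bool) (s : ℕ → ℕ) : ℕ → A × Bool
  | 0 => a
  | i + 1 => e.symm (e (inv' (letters e a s i)) + 1 + (s i : ZMod M))

/-- the word with `N` labels -/
def word {M : ℕ} (e : (A × Bool) ≃ ZMod M) (a : A × Bool) (s : ℕ → ℕ) (N : ℕ) : List (A × Bool) :=
  (List.range (N + 1)).map (letters e a s)

omit [DecidableEq A] in
lemma cast_ne {m : ℕ} {x y : ℕ} (hx : x < m) (hy : y < m) (h : x ≠ y) :
    (x : ZMod (m + 1)) ≠ (y : ZMod (m + 1)) := by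
  intro h1
  rw [ZMod.natCast_eq_natCast_iff'] at h1
  rw [Nat.mod_eq_of_lt (by omega), Nat.mod_eq_of_lt (by omega)] at h1
  exact h h1

omit [DecidableEq A] in
lemma isReduced_word {m : ℕ} (e : (A × Bool) ≃ ZMod (m + 1)) (a : A × Bool) (s : ℕ → ℕ) (N : ℕ)
    (hs : ∀ i, i < N → s i < m) : IsReduced (word e a s N) := by
  unfold word FreeGroup.IsReduced
  rw [List.isChain_map, List.isChain_range]
  intro i hi h1
  by_contra h2
  have h3 : letters e a s (i + 1) = inv' (letters e a s i) := by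
    unfold inv'
    apply Prod.ext
    · exact h1.symm
    · simp only
      revert h2
      cases (letters e a s i).2 <;> cases (letters e a s (i + 1)).2 <;> simp
  have h4 : e (letters e a s (i + 1)) = e (inv' (letters e a s i)) + 1 + (s i : ZMod (m + 1)) := by
    rw [letters, Equiv.apply_symm_apply]
  rw [h3] at h4
  have h5 : ((s i + 1 : ℕ) : ZMod (m + 1)) = 0 := by
    push_cast
    have : (1 : ZMod (m + 1)) + (s i : ZMod (m + 1)) = 0 := by
      rw [add_assoc] at h4
      exact left_eq_add.1 h4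
    linear_combination this
  rw [ZMod.natCast_eq_zero_iff] at h5
  have h6 := Nat.le_of_dvd (by omega) h5
  have h7 := hs i (by omega)
  omega

omit [DecidableEq A] in
lemma letters_congr {M : ℕ} (e : (A × Bool) ≃ ZMod M) (a : A × Bool) (s t : ℕ → ℕ) (p : ℕ)
    (h : ∀ i, i < p → s i = t i) (i : ℕ) (hi : i ≤ p) : letters e a s i = letters e a t i := by
  induction i with
  | zero => rfl
  | succ i ih => rw [letters, letters, ih (by omega), h i (by omega)]

omit [DecidableEq A] in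
/-- the letters after a position determine the label -/
lemma label_eq {m : ℕ} (e : (A × Bool) ≃ ZMod (m + 1)) (a : A × Bool) (s t : ℕ → ℕ) (i : ℕ)
    (hs : s i < m) (ht : t i < m) (h : letters e a s i = letters e a t i)
    (h' : letters e a s (i + 1) = letters e a t (i + 1)) : s i = t i := by
  by_contra hne
  rw [letters, letters, h] at h'
  have h1 := e.symm.injective h'
  exact cast_ne hs ht hne (add_left_cancel h1)

omit [DecidableEq A] in
lemma word_split {M : ℕ} (e : (A × Bool) ≃ ZMod M) (a : A × Bool) (s : ℕ → ℕ) (N p : ℕ)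
    (hp : p ≤ N) : word e a s N = (List.range (p + 1)).map (letters e a s) ++
      (List.range (N - p)).map (fun i => letters e a s (p + 1 + i)) := by
  unfold word
  have h1 : N + 1 = (p + 1) + (N - p) := by omega
  rw [h1, List.range_add, List.map_append, List.map_map]
  rfl

/-- the structure of a difference -/
lemma toWord_diff_word {m : ℕ} (e : (A × Bool) ≃ ZMod (m + 1)) (a : A × Bool) (s t : ℕ → ℕ)
    (N p : ℕ) (hs : ∀ i, i < N → s i < m) (ht : ∀ i, i < N → t i < m) (hp : p < N)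
    (h : ∀ i, i < p → s i = t i) (hne : s p ≠ t p) :
    toWord ((mk (word e a s N))⁻¹ * mk (word e a t N)) =
      invRev ((List.range (N - p)).map (fun i => letters e a s (p + 1 + i))) ++
        (List.range (N - p)).map (fun i => letters e a t (p + 1 + i)) := by
  have h1 : (List.range (p + 1)).map (letters e a s) = (List.range (p + 1)).map (letters e a t) := by
    apply List.map_congr_left
    intro i hi
    exact letters_congr e a s t p h i (by rw [List.mem_range] at hi; omega)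
  have hws := word_split e a s N p hp.le
  have hwt := word_split e a t N p hp.le
  rw [← h1] at hwt
  have hrs := isReduced_word e a s N hs
  have hrt := isReduced_word e a t N ht
  rw [hws] at hrs
  rw [hwt] at hrt
  rw [hws, hwt]
  apply toWord_diff hrs hrt
  intro x hx y hy hxy
  obtain ⟨r, hr⟩ : ∃ r, N - p = r + 1 := ⟨N - p - 1, by omega⟩
  rw [hr, List.range_succ_eq_map] at hx hy
  simp only [List.map_cons, List.head?_cons, Option.mem_def, Option.some.injEq, add_zero] at hx hy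
  rw [← hx, ← hy] at hxy
  exact hne (label_eq e a s t p (hs p hp) (ht p hp) (letters_congr e a s t p h p le_rfl) hxy)

/-- what a difference determines -/
lemma diff_eq {m : ℕ} (e : (A × Bool) ≃ ZMod (m + 1)) (a : A × Bool) (s t s' t' : ℕ → ℕ)
    (N p p' : ℕ) (hs : ∀ i, i < N → s i < m) (ht : ∀ i, i < N → t i < m)
    (hs' : ∀ i, i < N → s' i < m) (ht' : ∀ i, i < N → t' i < m)
    (hp : p < N) (h : ∀ i, i < p → s i = t i) (hne : s p ≠ t p)
    (hp' : p' < N) (h' : ∀ i, i < p' → s' i = t' i) (hne' : s' p' ≠ t' p')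
    (heq : (mk (word e a s N))⁻¹ * mk (word e a t N) = (mk (word e a s' N))⁻¹ * mk (word e a t' N)) :
    p = p' ∧ (∀ i, p < i → i < N → s i = s' i ∧ t i = t' i) ∧
      (s' p : ZMod (m + 1)) - s p = t' p - t p := by
  have h1 := toWord_diff_word e a s t N p hs ht hp h hne
  have h2 := toWord_diff_word e a s' t' N p' hs' ht' hp' h' hne'
  rw [heq, h2] at h1
  have hlen := congrArg List.length h1
  simp only [List.length_append, invRev_length, List.length_map, List.length_range] at hlen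
  have hpp : p = p' := by omega
  subst hpp
  obtain ⟨h3, h4⟩ := List.append_inj h1 (by simp)
  have h5 := congrArg invRev h3
  rw [invRev_invRev, invRev_invRev] at h5
  have hL : ∀ i, i < N - p → letters e a s' (p + 1 + i) = letters e a s (p + 1 + i) := by
    intro i hi
    exact List.map_inj_left.1 h5 i (List.mem_range.2 hi)
  have hL' : ∀ i, i < N - p → letters e a t' (p + 1 + i) = letters e a t (p + 1 + i) := by
    intro i hi
    exact List.map_inj_left.1 h4 i (List.mem_range.2 hi)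
  refine ⟨rfl, fun i hi1 hi2 => ?_, ?_⟩
  · obtain ⟨j, rfl⟩ : ∃ j, i = p + 1 + j := ⟨i - (p + 1), by omega⟩
    refine ⟨?_, ?_⟩
    · apply (label_eq e a s' s (p + 1 + j) (hs' _ hi2) (hs _ hi2) (hL j (by omega)) _).symm
      exact hL (j + 1) (by omega)
    · apply (label_eq e a t' t (p + 1 + j) (ht' _ hi2) (ht _ hi2) (hL' j (by omega)) _).symm
      exact hL' (j + 1) (by omega)
  · have h6 := hL 0 (by omega)
    have h7 := hL' 0 (by omega)
    rw [add_zero, letters, letters] at h6 h7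
    have h8 := e.symm.injective h6
    have h9 := e.symm.injective h7
    rw [letters_congr e a s' t' p h' p le_rfl, letters_congr e a s t p h p le_rfl] at h8
    have h10 : (s' p : ZMod (m + 1)) - s p =
        e (inv' (letters e a t p)) - e (inv' (letters e a t' p)) := by
      linear_combination h8
    have h11 : (t' p : ZMod (m + 1)) - t p =
        e (inv' (letters e a t p)) - e (inv' (letters e a t' p)) := by
      linear_combination h9
    rw [h10, h11]

end words

/-! ### arithmetic -/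

/-- digits in base `m` determine the number modulo powers of `m` -/
lemma mod_pow_eq (m x y j : ℕ) (h : ∀ i, i < j → x / m ^ i % m = y / m ^ i % m) :
    x % m ^ j = y % m ^ j := by
  induction j with
  | zero => simp [Nat.mod_one]
  | succ j ih =>
    rw [Nat.mod_pow_succ, Nat.mod_pow_succ, ih (fun i hi => h i (by omega)), h j (by omega)]

lemma eq_of_digits (m x y k : ℕ) (hx : x < m ^ k) (hy : y < m ^ k)
    (h : ∀ i, i < k → x / m ^ i % m = y / m ^ i % m) : x = y := by
  have h1 := mod_pow_eq m x y k h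
  rwa [Nat.mod_eq_of_lt hx, Nat.mod_eq_of_lt hy] at h1

lemma div_eq_of_digits (m x y k j : ℕ) (hm : 0 < m) (hj : j ≤ k) (hx : x < m ^ k) (hy : y < m ^ k)
    (h : ∀ i, j ≤ i → i < k → x / m ^ i % m = y / m ^ i % m) : x / m ^ j = y / m ^ j := by
  have hmj : 0 < m ^ j := pow_pos hm j
  have e : m ^ k = m ^ j * m ^ (k - j) := by rw [← pow_add]; congr 1; omega
  apply eq_of_digits m _ _ (k - j)
  · rw [Nat.div_lt_iff_lt_mul hmj, mul_comm, ← e]; exact hx
  · rw [Nat.div_lt_iff_lt_mul hmj, mul_comm, ← e]; exact hy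
  · intro i hi
    rw [Nat.div_div_eq_div_mul, Nat.div_div_eq_div_mul, ← pow_add]
    exact h (j + i) (by omega) (by omega)

/-- the bilinear relation has only the trivial solution: integer form -/
lemma core_dvd (m K J T Q : ℤ) (hm : 3 ≤ m) (hJ : 0 < J) (hT : 0 < T) (hK : K = J * m * T)
    (hQK : (3 * m + 2) * K < Q) (hQ : Prime Q) (u u' σ σ' τ τ' R R₂ y y' y₂ y₂' : ℤ)
    (hu0 : 0 ≤ u) (hu : u < J) (hu0' : 0 ≤ u') (hu' : u' < J)
    (hσ0 : 0 ≤ σ) (hσ : σ < m) (hσ0' : 0 ≤ σ') (hσ' : σ' < m)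
    (hτ0 : 0 ≤ τ) (hτ : τ < m) (hτ0' : 0 ≤ τ') (hτ' : τ' < m)
    (hR0 : 0 ≤ R) (hR : R < T) (hR0₂ : 0 ≤ R₂) (hR₂ : R₂ < T)
    (ky : y = u + J * (σ + m * R)) (ky' : y' = u' + J * (σ' + m * R))
    (ky₂ : y₂ = u + J * (τ + m * R₂)) (ky₂' : y₂' = u' + J * (τ' + m * R₂))
    (hne : σ ≠ τ) (hlab : (m + 1) ∣ (τ' - τ) - (σ' - σ)) (hy0 : 0 ≤ y) (hyK : y < K)
    (h4 : Q ∣ (y + K) * (y₂' + K) - (y' + K) * (y₂ + K)) : y = y' ∧ y₂ = y₂' := by
  obtain ⟨a, ha⟩ : ∃ a : ℤ, a = (u' - u) + J * (σ' - σ) := ⟨_, rfl⟩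
  obtain ⟨G, hG⟩ : ∃ G : ℤ, G = (σ - τ) + m * (R - R₂) := ⟨_, rfl⟩
  obtain ⟨E, hE⟩ : ∃ E : ℤ, E = (τ' - τ) - (σ' - σ) := ⟨_, rfl⟩
  have haeq : y' - y = a := by rw [ha, ky, ky']; ring
  have hbeq : y₂' - y₂ = a + J * E := by rw [ha, hE, ky₂, ky₂']; ring
  have hyy : y - y₂ = J * G := by rw [hG, ky, ky₂]; ring
  have hKz : 0 < K := by rw [hK]; positivity
  have haJ : |a| < J * m := by
    have p1 : J * (σ' - σ) ≤ J * (m - 1) := mul_le_mul_of_nonneg_left (by omega) hJ.le
    have p2 : J * (-(m - 1)) ≤ J * (σ' - σ) := mul_le_mul_of_nonneg_left (by omega) hJ.le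
    have e1 : J * (m - 1) = J * m - J := by ring
    have e2 : J * (-(m - 1)) = J - J * m := by ring
    rw [ha, abs_lt]
    constructor <;> linarith
  have hGb : |G| < m * T := by
    have p1 : m * (R - R₂) ≤ m * (T - 1) := mul_le_mul_of_nonneg_left (by omega) (by omega)
    have p2 : m * (-(T - 1)) ≤ m * (R - R₂) := mul_le_mul_of_nonneg_left (by omega) (by omega)
    have e1 : m * (T - 1) = m * T - m := by ring
    have e2 : m * (-(T - 1)) = m - m * T := by ring
    rw [hG, abs_lt]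
    constructor <;> linarith
  have haG : |a * G| ≤ m * K := by
    rw [abs_mul]
    calc |a| * |G| ≤ (J * m) * (m * T) := by
          apply mul_le_mul haJ.le hGb.le (abs_nonneg _); positivity
      _ = m * K := by rw [hK]; ring
  have hEcase : E = 0 ∨ E = m + 1 ∨ E = -(m + 1) := by
    rw [← hE] at hlab
    obtain ⟨c, hc⟩ := hlab
    have h4 : |E| < 2 * (m + 1) := by
      rw [hE, abs_lt]
      constructor <;> linarith
    rw [hc, abs_mul, abs_of_pos (by omega : 0 < m + 1)] at h4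
    have h6 : |c| < 2 := by
      by_contra h7
      push Not at h7
      have h8 := mul_le_mul_of_nonneg_left h7 (by omega : 0 ≤ m + 1)
      linarith
    rw [abs_lt] at h6
    have h7 : c = -1 ∨ c = 0 ∨ c = 1 := by omega
    rcases h7 with h7 | h7 | h7
    · right; right; rw [hc, h7]; ring
    · left; rw [hc, h7]; ring
    · right; left; rw [hc, h7]; ring
  have e1 : (y + K) * (y₂' + K) - (y' + K) * (y₂ + K) = J * ((y + K) * E + a * G) := by
    have f1 : y' = y + a := by linarith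
    have f2 : y₂' = y₂ + a + J * E := by linarith
    have f3 : y₂ = y - J * G := by linarith
    rw [f2, f1, f3]; ring
  rw [e1] at h4
  have hJK : J ≤ K := by
    rw [hK, mul_assoc]
    exact le_mul_of_one_le_right hJ.le (by nlinarith)
  have hKQ : K < Q := by nlinarith
  have h5 : Q ∣ (y + K) * E + a * G := by
    rcases hQ.dvd_or_dvd h4 with h6 | h6
    · exfalso
      have := Int.le_of_dvd hJ h6
      linarith
    · exact h6
  have haG' := abs_le.1 haG
  have hmK : m * K < Q := by nlinarith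
  have hGne : G ≠ 0 := by
    intro h6
    rw [hG] at h6
    have h7 : m ∣ σ - τ := ⟨R₂ - R, by linarith⟩
    have h8 : |σ - τ| < m := by rw [abs_lt]; constructor <;> linarith
    have h9 := Int.eq_zero_of_abs_lt_dvd h7 h8
    exact hne (by linarith)
  have q1 : (y + K) * (m + 1) ≤ (2 * K) * (m + 1) :=
    mul_le_mul_of_nonneg_right (by linarith) (by linarith)
  have q2 : K * (m + 1) ≤ (y + K) * (m + 1) :=
    mul_le_mul_of_nonneg_right (by linarith) (by linarith)
  have q3 : (2 * K) * (m + 1) + m * K = (3 * m + 2) * K := by ring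
  have q4 : K * (m + 1) = m * K + K := by ring
  rcases hEcase with hE0 | hE0 | hE0
  · rw [hE0, mul_zero, zero_add] at h5
    have h6 : a * G = 0 := Int.eq_zero_of_abs_lt_dvd h5 (haG.trans_lt hmK)
    have h7 : a = 0 := by
      rcases mul_eq_zero.1 h6 with h8 | h8
      · exact h8
      · exact absurd h8 hGne
    refine ⟨by linarith, ?_⟩
    rw [h7, hE0] at hbeq; linarith
  · exfalso
    rw [hE0] at h5
    have h6 := Int.eq_zero_of_abs_lt_dvd h5 (by
      rw [abs_lt]; constructor <;> linarith [haG'.1, haG'.2])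
    linarith [haG'.1, haG'.2]
  · exfalso
    rw [hE0] at h5
    have q5 : (y + K) * (-(m + 1)) = - ((y + K) * (m + 1)) := by ring
    rw [q5] at h5
    have h6 := Int.eq_zero_of_abs_lt_dvd h5 (by
      rw [abs_lt]; constructor <;> linarith [haG'.1, haG'.2])
    linarith [haG'.1, haG'.2]

/-- the bilinear relation has only the trivial solution -/
lemma arith (m k Q : ℕ) (hm : 3 ≤ m) (hQ : Q.Prime) (hQk : (3 * m + 2) * m ^ k < Q)
    (x x' y y' y₂ y₂' j : ℕ) (hj : j < k) (hx : 0 < x) (hxk : x < m ^ k) (hx' : 0 < x')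
    (hxk' : x' < m ^ k) (hy : y < m ^ k) (hy' : y' < m ^ k) (hy₂ : y₂ < m ^ k) (hy₂' : y₂' < m ^ k)
    (h1 : (x : ZMod Q) * (y + (m ^ k : ℕ)) = x' * (y' + (m ^ k : ℕ)))
    (h2 : (x : ZMod Q) * (y₂ + (m ^ k : ℕ)) = x' * (y₂' + (m ^ k : ℕ)))
    (hlow : ∀ i, i < j → y / m ^ i % m = y₂ / m ^ i % m)
    (hlow' : ∀ i, i < j → y' / m ^ i % m = y₂' / m ^ i % m)
    (hhigh : ∀ i, j < i → i < k → y / m ^ i % m = y' / m ^ i % m)
    (hhigh₂ : ∀ i, j < i → i < k → y₂ / m ^ i % m = y₂' / m ^ i % m)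
    (hne : y / m ^ j % m ≠ y₂ / m ^ j % m)
    (hlab : ((y' / m ^ j % m : ℕ) : ZMod (m + 1)) - (y / m ^ j % m : ℕ) =
      ((y₂' / m ^ j % m : ℕ) : ZMod (m + 1)) - (y₂ / m ^ j % m : ℕ)) :
    x = x' ∧ y = y' ∧ y₂ = y₂' := by
  have := Fact.mk hQ
  have hm0 : 0 < m := by omega
  have hmk : 0 < m ^ k := pow_pos hm0 k
  have hmj : 0 < m ^ j := pow_pos hm0 j
  -- decompositions
  have key : ∀ z : ℕ, z = z % m ^ j + m ^ j * (z / m ^ j % m + m * (z / m ^ (j + 1))) := by
    intro z
    have e1 := Nat.mod_add_div z (m ^ j)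
    have e2 := Nat.mod_add_div (z / m ^ j) m
    have e3 : z / m ^ j / m = z / m ^ (j + 1) := by
      rw [Nat.div_div_eq_div_mul, pow_succ]
    rw [e3] at e2
    rw [e2]
    exact e1.symm
  have eu : y % m ^ j = y₂ % m ^ j := mod_pow_eq m y y₂ j hlow
  have eu' : y' % m ^ j = y₂' % m ^ j := mod_pow_eq m y' y₂' j hlow'
  have eR : y / m ^ (j + 1) = y' / m ^ (j + 1) :=
    div_eq_of_digits m y y' k (j + 1) hm0 (by omega) hy hy' (fun i hi => hhigh i (by omega))
  have eR₂ : y₂ / m ^ (j + 1) = y₂' / m ^ (j + 1) :=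
    div_eq_of_digits m y₂ y₂' k (j + 1) hm0 (by omega) hy₂ hy₂' (fun i hi => hhigh₂ i (by omega))
  have ky := key y
  have ky' := key y'
  have ky₂ := key y₂
  have ky₂' := key y₂'
  rw [← eR] at ky'
  rw [← eu] at ky₂
  rw [← eu', ← eR₂] at ky₂'
  have hu := Nat.mod_lt y hmj
  have hu' := Nat.mod_lt y' hmj
  have hσ := Nat.mod_lt (y / m ^ j) hm0
  have hσ' := Nat.mod_lt (y' / m ^ j) hm0
  have hτ := Nat.mod_lt (y₂ / m ^ j) hm0
  have hτ' := Nat.mod_lt (y₂' / m ^ j) hm0
  have hRb : ∀ z, z < m ^ k → z / m ^ (j + 1) < m ^ (k - (j + 1)) := by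
    intro z hz
    rw [Nat.div_lt_iff_lt_mul (pow_pos hm0 _), ← pow_add]
    have : k - (j + 1) + (j + 1) = k := by omega
    rw [this]; exact hz
  have hKJT : m ^ k = m ^ j * m * m ^ (k - (j + 1)) := by
    rw [← pow_succ, ← pow_add]; congr 1; omega
  have hlab' : ((m : ℤ) + 1) ∣ (((y₂' / m ^ j % m : ℕ) : ℤ) - (y₂ / m ^ j % m : ℕ)) -
      (((y' / m ^ j % m : ℕ) : ℤ) - (y / m ^ j % m : ℕ)) := by
    have h3 : ((m + 1 : ℕ) : ℤ) ∣ (((y₂' / m ^ j % m : ℕ) : ℤ) - (y₂ / m ^ j % m : ℕ)) -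
      (((y' / m ^ j % m : ℕ) : ℤ) - (y / m ^ j % m : ℕ)) := by
      rw [← ZMod.intCast_zmod_eq_zero_iff_dvd]
      rw [Int.cast_sub, Int.cast_sub, Int.cast_sub, Int.cast_natCast, Int.cast_natCast,
        Int.cast_natCast, Int.cast_natCast, hlab]
      ring
    push_cast at h3 ⊢
    exact h3
  have hxne : (x : ZMod Q) ≠ 0 := by
    intro h3
    rw [ZMod.natCast_eq_zero_iff] at h3
    have := Nat.le_of_dvd hx h3
    nlinarith
  have hxne' : (x' : ZMod Q) ≠ 0 := by
    intro h3
    rw [ZMod.natCast_eq_zero_iff] at h3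
    have := Nat.le_of_dvd hx' h3
    nlinarith
  have h3 : ((y : ZMod Q) + (m ^ k : ℕ)) * (y₂' + (m ^ k : ℕ)) -
      (y' + (m ^ k : ℕ)) * (y₂ + (m ^ k : ℕ)) = 0 := by
    have h4 : (x : ZMod Q) * x' * (((y : ZMod Q) + (m ^ k : ℕ)) * (y₂' + (m ^ k : ℕ)) -
        (y' + (m ^ k : ℕ)) * (y₂ + (m ^ k : ℕ))) = 0 := by
      linear_combination x' * (y₂' + ((m ^ k : ℕ) : ZMod Q)) * h1 -
        x' * (y' + ((m ^ k : ℕ) : ZMod Q)) * h2
    rcases mul_eq_zero.1 h4 with h5 | h5
    · rcases mul_eq_zero.1 h5 with h6 | h6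
      · exact absurd h6 hxne
      · exact absurd h6 hxne'
    · exact h5
  have h4 : (Q : ℤ) ∣ ((y : ℤ) + (m ^ k : ℕ)) * (y₂' + (m ^ k : ℕ)) -
      (y' + (m ^ k : ℕ)) * (y₂ + (m ^ k : ℕ)) := by
    rw [← ZMod.intCast_zmod_eq_zero_iff_dvd]
    rw [← h3]
    simp only [Int.cast_sub, Int.cast_mul, Int.cast_add, Int.cast_natCast]
  have hres := core_dvd (m : ℤ) ((m ^ k : ℕ) : ℤ) ((m ^ j : ℕ) : ℤ) ((m ^ (k - (j + 1)) : ℕ) : ℤ)
    (Q : ℤ) (by exact_mod_cast hm) (by exact_mod_cast hmj)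
    (by exact_mod_cast (pow_pos hm0 _)) (by exact_mod_cast hKJT) (by exact_mod_cast hQk)
    (Nat.prime_iff_prime_int.1 hQ) ((y % m ^ j : ℕ) : ℤ) ((y' % m ^ j : ℕ) : ℤ)
    ((y / m ^ j % m : ℕ) : ℤ) ((y' / m ^ j % m : ℕ) : ℤ) ((y₂ / m ^ j % m : ℕ) : ℤ)
    ((y₂' / m ^ j % m : ℕ) : ℤ) ((y / m ^ (j + 1) : ℕ) : ℤ) ((y₂ / m ^ (j + 1) : ℕ) : ℤ)
    (y : ℤ) (y' : ℤ) (y₂ : ℤ) (y₂' : ℤ)
    (Int.natCast_nonneg _) (Int.ofNat_lt.2 hu) (Int.natCast_nonneg _) (Int.ofNat_lt.2 hu')
    (Int.natCast_nonneg _) (Int.ofNat_lt.2 hσ) (Int.natCast_nonneg _) (Int.ofNat_lt.2 hσ')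
    (Int.natCast_nonneg _) (Int.ofNat_lt.2 hτ) (Int.natCast_nonneg _) (Int.ofNat_lt.2 hτ')
    (Int.natCast_nonneg _) (Int.ofNat_lt.2 (hRb y hy)) (Int.natCast_nonneg _)
    (Int.ofNat_lt.2 (hRb y₂ hy₂)) (by exact_mod_cast ky) (by exact_mod_cast ky')
    (by exact_mod_cast ky₂) (by exact_mod_cast ky₂') (by exact_mod_cast hne) hlab'
    (Int.natCast_nonneg _) (Int.ofNat_lt.2 hy) h4
  have hyeq : y = y' := by exact_mod_cast hres.1
  have hyeq₂ : y₂ = y₂' := by exact_mod_cast hres.2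
  refine ⟨?_, hyeq, hyeq₂⟩
  rw [← hyeq] at h1
  have hyne : (y : ZMod Q) + (m ^ k : ℕ) ≠ 0 := by
    intro h8
    have h9 : ((y + m ^ k : ℕ) : ZMod Q) = 0 := by rw [Nat.cast_add]; exact h8
    rw [ZMod.natCast_eq_zero_iff] at h9
    have := Nat.le_of_dvd (by omega) h9
    nlinarith
  have h8 := mul_right_cancel₀ hyne h1
  rw [ZMod.natCast_eq_natCast_iff'] at h8
  rwa [Nat.mod_eq_of_lt (by nlinarith), Nat.mod_eq_of_lt (by nlinarith)] at h8

/-! ### the construction -/

/-- the `3 k` digits of the three numbers -/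
def dig (m k : ℕ) (t : ℕ × ℕ × ℕ) (i : ℕ) : ℕ :=
  if i < k then t.1 / m ^ i % m
  else if i < 2 * k then t.2.1 / m ^ (i - k) % m
  else t.2.2 / m ^ (i - 2 * k) % m

lemma dig_lt (m k : ℕ) (hm : 0 < m) (t : ℕ × ℕ × ℕ) (i : ℕ) : dig m k t i < m := by
  unfold dig
  split_ifs <;> exact Nat.mod_lt _ hm

lemma dig_x (m k : ℕ) (t : ℕ × ℕ × ℕ) (i : ℕ) (hi : i < k) : dig m k t i = t.1 / m ^ i % m := by
  unfold dig
  rw [if_pos hi]

lemma dig_y (m k : ℕ) (t : ℕ × ℕ × ℕ) (i : ℕ) (hi : i < k) :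
    dig m k t (k + i) = t.2.1 / m ^ i % m := by
  unfold dig
  rw [if_neg (by omega), if_pos (by omega)]
  congr 3
  omega

lemma dig_z (m k : ℕ) (t : ℕ × ℕ × ℕ) (i : ℕ) : dig m k t (2 * k + i) = t.2.2 / m ^ i % m := by
  unfold dig
  rw [if_neg (by omega), if_neg (by omega)]
  congr 3
  omega

lemma exists_first (m k : ℕ) (t t' : ℕ × ℕ × ℕ) (h1 : t.1 < m ^ k) (h2 : t.2.1 < m ^ k)
    (h3 : t.2.2 < m ^ k) (h1' : t'.1 < m ^ k) (h2' : t'.2.1 < m ^ k) (h3' : t'.2.2 < m ^ k)
    (hne : t ≠ t') : ∃ p, p < 3 * k ∧ (∀ i, i < p → dig m k t i = dig m k t' i) ∧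
      dig m k t p ≠ dig m k t' p := by
  have h : ∃ p, p < 3 * k ∧ dig m k t p ≠ dig m k t' p := by
    by_contra hcon
    push Not at hcon
    apply hne
    have e1 : t.1 = t'.1 := eq_of_digits m _ _ k h1 h1' (fun i hi => by
      have := hcon i (by omega)
      rwa [dig_x _ _ _ _ hi, dig_x _ _ _ _ hi] at this)
    have e2 : t.2.1 = t'.2.1 := eq_of_digits m _ _ k h2 h2' (fun i hi => by
      have := hcon (k + i) (by omega)
      rwa [dig_y _ _ _ _ hi, dig_y _ _ _ _ hi] at this)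
    have e3 : t.2.2 = t'.2.2 := eq_of_digits m _ _ k h3 h3' (fun i hi => by
      have := hcon (2 * k + i) (by omega)
      rwa [dig_z, dig_z] at this)
    exact Prod.ext e1 (Prod.ext e2 e3)
  classical
  refine ⟨Nat.find h, (Nat.find_spec h).1, fun i hi => ?_, (Nat.find_spec h).2⟩
  by_contra h4
  exact Nat.find_min h hi ⟨by have := (Nat.find_spec h).1; omega, h4⟩

lemma eq_of_cast {Q K x y : ℕ} (hKQ : K < Q) (hx : x < K) (hy : y < K)
    (h : (x : ZMod Q) = y) : x = y := by
  rw [ZMod.natCast_eq_natCast_iff'] at h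
  rwa [Nat.mod_eq_of_lt (by omega), Nat.mod_eq_of_lt (by omega)] at h

/-- the configuration property for the triples on one surface `z = x (y + m^k) + c` -/
lemma triples {A : Type*} [DecidableEq A] (m k Q : ℕ) (hm : 3 ≤ m) (hQ : Q.Prime)
    (hQk : (3 * m + 2) * m ^ k < Q) (e : (A × Bool) ≃ ZMod (m + 1)) (a : A × Bool) (c : ZMod Q)
    (F : Set (ℕ × ℕ × ℕ))
    (hF : ∀ t ∈ F, 0 < t.1 ∧ t.1 < m ^ k ∧ t.2.1 < m ^ k ∧ t.2.2 < m ^ k ∧
      (t.2.2 : ZMod Q) - t.1 * (t.2.1 + (m ^ k : ℕ)) = c)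
    (t₁ t₂ t₁' t₂' : ℕ × ℕ × ℕ) (h1 : t₁ ∈ F) (h2 : t₂ ∈ F) (h1' : t₁' ∈ F) (h2' : t₂' ∈ F)
    (hne : t₁ ≠ t₂) (hne' : t₁' ≠ t₂')
    (heq : (mk (word e a (dig m k t₁) (3 * k)))⁻¹ * mk (word e a (dig m k t₂) (3 * k)) =
      (mk (word e a (dig m k t₁') (3 * k)))⁻¹ * mk (word e a (dig m k t₂') (3 * k))) :
    t₁ = t₁' ∧ t₂ = t₂' := by
  have := Fact.mk hQ
  have hm0 : 0 < m := by omega
  have hmk : 0 < m ^ k := pow_pos hm0 k
  have hKQ : m ^ k < Q := by nlinarith
  obtain ⟨x₁, y₁, z₁⟩ := t₁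
  obtain ⟨x₂, y₂, z₂⟩ := t₂
  obtain ⟨x₁', y₁', z₁'⟩ := t₁'
  obtain ⟨x₂', y₂', z₂'⟩ := t₂'
  obtain ⟨a1, a2, a3, a4, a5⟩ := hF _ h1
  obtain ⟨b1, b2, b3, b4, b5⟩ := hF _ h2
  obtain ⟨a1', a2', a3', a4', a5'⟩ := hF _ h1'
  obtain ⟨b1', b2', b3', b4', b5'⟩ := hF _ h2'
  simp only at a1 a2 a3 a4 a5 b1 b2 b3 b4 b5 a1' a2' a3' a4' a5' b1' b2' b3' b4' b5'
  obtain ⟨p, hp, hpl, hpn⟩ := exists_first m k _ _ a2 a3 a4 b2 b3 b4 hne
  obtain ⟨p', hp', hpl', hpn'⟩ := exists_first m k _ _ a2' a3' a4' b2' b3' b4' hne'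
  obtain ⟨hpp, hhigh, hlab⟩ := diff_eq e a _ _ _ _ (3 * k) p p' (fun i _ => dig_lt m k hm0 _ i)
    (fun i _ => dig_lt m k hm0 _ i) (fun i _ => dig_lt m k hm0 _ i) (fun i _ => dig_lt m k hm0 _ i)
    hp hpl hpn hp' hpl' hpn' heq
  subst hpp
  have hyne : ∀ y, y < m ^ k → (y : ZMod Q) + (m ^ k : ℕ) ≠ 0 := by
    intro y hy h8
    have h9 : ((y + m ^ k : ℕ) : ZMod Q) = 0 := by rw [Nat.cast_add]; exact h8
    rw [ZMod.natCast_eq_zero_iff] at h9
    have := Nat.le_of_dvd (by omega) h9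
    nlinarith
  rcases lt_or_ge p k with hpk | hpk
  · -- the `x`-part
    have ey : y₁ = y₁' := eq_of_digits m _ _ k a3 a3' (fun i hi => by
      have := (hhigh (k + i) (by omega) (by omega)).1
      rwa [dig_y _ _ _ _ hi, dig_y _ _ _ _ hi] at this)
    have ez : z₁ = z₁' := eq_of_digits m _ _ k a4 a4' (fun i hi => by
      have := (hhigh (2 * k + i) (by omega) (by omega)).1
      rwa [dig_z, dig_z] at this)
    have ey2 : y₂ = y₂' := eq_of_digits m _ _ k b3 b3' (fun i hi => by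
      have := (hhigh (k + i) (by omega) (by omega)).2
      rwa [dig_y _ _ _ _ hi, dig_y _ _ _ _ hi] at this)
    have ez2 : z₂ = z₂' := eq_of_digits m _ _ k b4 b4' (fun i hi => by
      have := (hhigh (2 * k + i) (by omega) (by omega)).2
      rwa [dig_z, dig_z] at this)
    subst ey ez ey2 ez2
    have ex : x₁ = x₁' := by
      apply eq_of_cast hKQ a2 a2'
      apply mul_right_cancel₀ (hyne y₁ a3)
      linear_combination a5' - a5
    have ex2 : x₂ = x₂' := by
      apply eq_of_cast hKQ b2 b2'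
      apply mul_right_cancel₀ (hyne y₂ b3)
      linear_combination b5' - b5
    subst ex ex2
    exact ⟨rfl, rfl⟩
  · have ex : x₁ = x₂ := eq_of_digits m _ _ k a2 b2 (fun i hi => by
      have := hpl i (by omega)
      rwa [dig_x _ _ _ _ hi, dig_x _ _ _ _ hi] at this)
    have ex' : x₁' = x₂' := eq_of_digits m _ _ k a2' b2' (fun i hi => by
      have := hpl' i (by omega)
      rwa [dig_x _ _ _ _ hi, dig_x _ _ _ _ hi] at this)
    subst ex ex'
    rcases lt_or_ge p (2 * k) with hpk2 | hpk2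
    · -- the `y`-part
      obtain ⟨j, rfl⟩ : ∃ j, p = k + j := ⟨p - k, by omega⟩
      have hj : j < k := by omega
      have ez : z₁ = z₁' := eq_of_digits m _ _ k a4 a4' (fun i hi => by
        have := (hhigh (2 * k + i) (by omega) (by omega)).1
        rwa [dig_z, dig_z] at this)
      have ez2 : z₂ = z₂' := eq_of_digits m _ _ k b4 b4' (fun i hi => by
        have := (hhigh (2 * k + i) (by omega) (by omega)).2
        rwa [dig_z, dig_z] at this)
      subst ez ez2
      rw [dig_y _ _ _ _ hj, dig_y _ _ _ _ hj, dig_y _ _ _ _ hj, dig_y _ _ _ _ hj] at hlab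
      rw [dig_y _ _ _ _ hj, dig_y _ _ _ _ hj] at hpn
      obtain ⟨r1, r2, r3⟩ := arith m k Q hm hQ hQk x₁ x₁' y₁ y₁' y₂ y₂' j hj a1 a2 a1' a2' a3 a3'
        b3 b3' (by linear_combination a5' - a5) (by linear_combination b5' - b5)
        (fun i hi => by
          have := hpl (k + i) (by omega)
          rwa [dig_y _ _ _ _ (by omega), dig_y _ _ _ _ (by omega)] at this)
        (fun i hi => by
          have := hpl' (k + i) (by omega)
          rwa [dig_y _ _ _ _ (by omega), dig_y _ _ _ _ (by omega)] at this)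
        (fun i hi hik => by
          have := (hhigh (k + i) (by omega) (by omega)).1
          rwa [dig_y _ _ _ _ hik, dig_y _ _ _ _ hik] at this)
        (fun i hi hik => by
          have := (hhigh (k + i) (by omega) (by omega)).2
          rwa [dig_y _ _ _ _ hik, dig_y _ _ _ _ hik] at this)
        hpn hlab
      subst r1 r2 r3
      exact ⟨rfl, rfl⟩
    · exfalso
      have ey : y₁ = y₂ := eq_of_digits m _ _ k a3 b3 (fun i hi => by
        have := hpl (k + i) (by omega)
        rwa [dig_y _ _ _ _ hi, dig_y _ _ _ _ hi] at this)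
      subst ey
      have ez : z₁ = z₂ := by
        apply eq_of_cast hKQ a4 b4
        linear_combination a5 - b5
      subst ez
      exact hpn rfl

/-- the construction -/
lemma exists_ddc {A : Type*} [DecidableEq A] [Fintype A] [Nonempty A] (m : ℕ) (hm : 3 ≤ m)
    (hA : 2 * Fintype.card A = m + 1) (k : ℕ) : ∃ D : Finset (FreeGroup A), IsDDC D ∧
      DiamLE D (6 * k) ∧ (m ^ k - 1) * m ^ k / (2 * (3 * m + 2)) ≤ D.card := by
  classical
  have hm0 : 0 < m := by omega
  have hmk : 0 < m ^ k := pow_pos hm0 k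
  obtain ⟨Q, hQ, hQ1, hQ2⟩ := Nat.exists_prime_lt_and_le_two_mul ((3 * m + 2) * m ^ k)
    (by positivity)
  have := Fact.mk hQ
  have hcardA : Fintype.card (A × Bool) = Fintype.card (ZMod (m + 1)) := by
    rw [Fintype.card_prod, Fintype.card_bool, ZMod.card]; omega
  let e : (A × Bool) ≃ ZMod (m + 1) := Fintype.equivOfCardEq hcardA
  let a : A × Bool := (Classical.arbitrary A, true)
  obtain ⟨S, hS⟩ : ∃ S : Finset (ℕ × ℕ × ℕ), S = (Finset.Ico 1 (m ^ k)) ×ˢ (range (m ^ k) ×ˢ
    range (m ^ k)) := ⟨_, rfl⟩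
  let f : ℕ × ℕ × ℕ → ZMod Q := fun t => (t.2.2 : ZMod Q) - t.1 * (t.2.1 + (m ^ k : ℕ))
  have hScard : S.card = (m ^ k - 1) * (m ^ k * m ^ k) := by
    rw [hS, Finset.card_product, Finset.card_product, Nat.card_Ico, Finset.card_range]
  obtain ⟨c, _, hc⟩ := Finset.exists_le_card_fiber_of_mul_le_card_of_maps_to
    (s := S) (t := (univ : Finset (ZMod Q))) (f := f) (n := S.card / Q)
    (fun _ _ => mem_univ _) ⟨0, mem_univ _⟩ (by
      rw [Finset.card_univ, ZMod.card]; exact Nat.mul_div_le _ _)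
  obtain ⟨F, hF⟩ : ∃ F, F = S.filter (fun t => f t = c) := ⟨_, rfl⟩
  rw [← hF] at hc
  have hFmem : ∀ t ∈ (F : Set (ℕ × ℕ × ℕ)), 0 < t.1 ∧ t.1 < m ^ k ∧ t.2.1 < m ^ k ∧ t.2.2 < m ^ k ∧
      (t.2.2 : ZMod Q) - t.1 * (t.2.1 + (m ^ k : ℕ)) = c := by
    intro t ht
    rw [Finset.mem_coe, hF, mem_filter, hS, mem_product, mem_product, Finset.mem_Ico, mem_range,
      mem_range] at ht
    exact ⟨ht.1.1.1, ht.1.1.2, ht.1.2.1, ht.1.2.2, ht.2⟩
  let g : ℕ × ℕ × ℕ → FreeGroup A := fun t => mk (word e a (dig m k t) (3 * k))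
  have hdiff : ∀ t ∈ F, ∀ t' ∈ F, t ≠ t' → g t ≠ g t' := by
    intro t ht t' ht' hne hg
    obtain ⟨a1, a2, a3, a4, -⟩ := hFmem t (Finset.mem_coe.2 ht)
    obtain ⟨b1, b2, b3, b4, -⟩ := hFmem t' (Finset.mem_coe.2 ht')
    obtain ⟨p, hp, hpl, hpn⟩ := exists_first m k t t' a2 a3 a4 b2 b3 b4 hne
    have h1 := toWord_diff_word e a (dig m k t) (dig m k t') (3 * k) p
      (fun i _ => dig_lt m k hm0 _ i) (fun i _ => dig_lt m k hm0 _ i) hp hpl hpn
    have h2 : (g t)⁻¹ * g t' = 1 := by rw [hg]; group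
    change toWord ((g t)⁻¹ * g t') = _ at h1
    rw [h2, toWord_one] at h1
    have h3 := congrArg List.length h1
    simp only [List.length_append, invRev_length, List.length_map, List.length_range,
      List.length_nil] at h3
    omega
  have hginj : Set.InjOn g (F : Set (ℕ × ℕ × ℕ)) := by
    intro t ht t' ht' hg
    by_contra hne
    exact hdiff t ht t' ht' hne hg
  refine ⟨F.image g, ?_, ?_, ?_⟩
  · intro g₁ hg₁ g₂ hg₂ g₁' hg₁' g₂' hg₂' hne hne' heq
    rw [mem_image] at hg₁ hg₂ hg₁' hg₂'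
    obtain ⟨t₁, ht₁, rfl⟩ := hg₁
    obtain ⟨t₂, ht₂, rfl⟩ := hg₂
    obtain ⟨t₁', ht₁', rfl⟩ := hg₁'
    obtain ⟨t₂', ht₂', rfl⟩ := hg₂'
    obtain ⟨r1, r2⟩ := triples m k Q hm hQ hQ1 e a c (F : Set _) hFmem t₁ t₂ t₁' t₂'
      (Finset.mem_coe.2 ht₁) (Finset.mem_coe.2 ht₂) (Finset.mem_coe.2 ht₁') (Finset.mem_coe.2 ht₂')
      (fun h => hne (by rw [h])) (fun h => hne' (by rw [h])) heq
    rw [r1, r2]
    exact ⟨rfl, rfl⟩
  · intro g₁ hg₁ g₂ hg₂
    rw [mem_image] at hg₁ hg₂
    obtain ⟨t₁, -, rfl⟩ := hg₁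
    obtain ⟨t₂, -, rfl⟩ := hg₂
    have h1 := word_split e a (dig m k t₁) (3 * k) 0 (Nat.zero_le _)
    have h2 := word_split e a (dig m k t₂) (3 * k) 0 (Nat.zero_le _)
    have h3 : (List.range (0 + 1)).map (letters e a (dig m k t₁)) =
        (List.range (0 + 1)).map (letters e a (dig m k t₂)) := by
      simp [List.range_succ, letters]
    rw [← h3] at h2
    change ((mk (word e a (dig m k t₁) (3 * k)))⁻¹ * mk (word e a (dig m k t₂) (3 * k))).norm ≤ _
    rw [h1, h2]
    refine (norm_diff_le _ _ _).trans ?_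
    rw [List.length_map, List.length_map, List.length_range]
    omega
  · rw [Finset.card_image_of_injOn hginj]
    refine le_trans ?_ hc
    rw [hScard]
    calc (m ^ k - 1) * m ^ k / (2 * (3 * m + 2)) =
        ((m ^ k - 1) * m ^ k * m ^ k) / (2 * (3 * m + 2) * m ^ k) :=
          (Nat.mul_div_mul_right _ _ hmk).symm
      _ ≤ (m ^ k - 1) * (m ^ k * m ^ k) / Q := by
          rw [mul_assoc (m ^ k - 1)]
          apply Nat.div_le_div_left _ hQ.pos
          rw [mul_assoc]; exact hQ2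

/-! ### the result -/

/-- the cardinalities of the distinct difference configurations of diameter at most `d` in `F_n` -/
def sizes (n d : ℕ) : Set ℕ :=
  {N | ∃ D : Finset (FreeGroup (Fin n)), IsDDC D ∧ DiamLE D d ∧ D.card = N}

/-- `m(n, d)` -/
noncomputable def maxSize (n d : ℕ) : ℕ := sSup (sizes n d)

lemma upper (n m : ℕ) (hm : 3 ≤ m) (hnm : 2 * n = m + 1) (d N : ℕ) (hN : N ∈ sizes n d) :
    (N : ℝ) ≤ 4 * (m : ℝ) ^ 2 * (m : ℝ) ^ ((d : ℝ) / 3) := by
  obtain ⟨D, hD, hd, rfl⟩ := hN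
  have h := ddc_sq_le (A := Fin n) m hm (by rw [Fintype.card_fin]; exact hnm) D hD d hd (d / 3)
  obtain ⟨T, hT⟩ : ∃ T : ℝ, T = (m : ℝ) ^ ((d : ℝ) / 3) := ⟨_, rfl⟩
  have hmr : (3 : ℝ) ≤ m := by exact_mod_cast hm
  have hm1 : (1 : ℝ) ≤ m := by linarith
  have hm0 : (0 : ℝ) < m := by linarith
  have hT0 : 0 < T := by rw [hT]; exact Real.rpow_pos_of_pos hm0 _
  have h1 : ((m ^ (d / 3) : ℕ) : ℝ) ≤ T := by
    rw [hT, Nat.cast_pow, ← Real.rpow_natCast]
    apply Real.rpow_le_rpow_of_exponent_le hm1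
    have : ((3 * (d / 3) : ℕ) : ℝ) ≤ (d : ℝ) := by exact_mod_cast Nat.mul_div_le d 3
    push_cast at this
    linarith
  have h2 : ((m ^ (2 * ((d + 1) / 2 - d / 3)) : ℕ) : ℝ) ≤ T * (m : ℝ) ^ 3 := by
    rw [hT, Nat.cast_pow, ← Real.rpow_natCast, ← Real.rpow_natCast, ← Real.rpow_add hm0]
    apply Real.rpow_le_rpow_of_exponent_le hm1
    have h3 : 3 * (2 * ((d + 1) / 2 - d / 3)) ≤ d + 9 := by omega
    have h4 : ((3 * (2 * ((d + 1) / 2 - d / 3)) : ℕ) : ℝ) ≤ ((d + 9 : ℕ) : ℝ) := by exact_mod_cast h3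
    push_cast at h4 ⊢
    linarith
  have h3 : ((D.card ^ 2 : ℕ) : ℝ) ≤
      ((2 * m ^ (d / 3) * (D.card + 2 * m ^ (2 * ((d + 1) / 2 - d / 3))) : ℕ) : ℝ) := by
    exact_mod_cast h
  rw [Nat.cast_pow, Nat.cast_mul, Nat.cast_mul, Nat.cast_add, Nat.cast_mul] at h3
  have h4 : (D.card : ℝ) ^ 2 ≤ 2 * T * (D.card + 2 * (T * (m : ℝ) ^ 3)) := by
    refine h3.trans ?_
    push_cast at h1 h2 ⊢
    gcongr
  rw [← hT]
  obtain ⟨X, hX⟩ : ∃ X : ℝ, X = D.card := ⟨_, rfl⟩
  rw [← hX] at h4 ⊢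
  by_contra hcon
  push Not at hcon
  have hX0 : 0 < X := lt_trans (by positivity) hcon
  have h5 : 4 * (m : ℝ) ^ 2 * T * X < X ^ 2 := by
    rw [sq X]; exact mul_lt_mul_of_pos_right hcon hX0
  have h6 : 2 * T * X ≤ 2 * (m : ℝ) ^ 2 * T * X := by
    have : (1 : ℝ) ≤ (m : ℝ) ^ 2 := one_le_pow₀ hm1
    nlinarith [mul_pos hT0 hX0]
  have h7 : 4 * T ^ 2 * (m : ℝ) ^ 3 ≤ 2 * (m : ℝ) ^ 2 * T * X := by
    have e1 : 2 * (m : ℝ) ^ 2 * T * (4 * (m : ℝ) ^ 2 * T) = 4 * T ^ 2 * (m : ℝ) ^ 3 * (2 * m) := by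
      ring
    have e2 : 4 * T ^ 2 * (m : ℝ) ^ 3 * 1 ≤ 4 * T ^ 2 * (m : ℝ) ^ 3 * (2 * m) := by
      apply mul_le_mul_of_nonneg_left _ (by positivity)
      linarith
    have e3 : 2 * (m : ℝ) ^ 2 * T * (4 * (m : ℝ) ^ 2 * T) ≤ 2 * (m : ℝ) ^ 2 * T * X :=
      mul_le_mul_of_nonneg_left hcon.le (by positivity)
    linarith
  nlinarith

lemma bdd (n m : ℕ) (hm : 3 ≤ m) (hnm : 2 * n = m + 1) (d : ℕ) : BddAbove (sizes n d) := by
  refine ⟨⌊4 * (m : ℝ) ^ 2 * (m : ℝ) ^ ((d : ℝ) / 3)⌋₊, fun N hN => ?_⟩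
  exact Nat.le_floor (upper n m hm hnm d N hN)

lemma lower (n m : ℕ) (hm : 3 ≤ m) (hnm : 2 * n = m + 1) (d : ℕ) :
    (m : ℝ) ^ ((d : ℝ) / 3 - 2) / (8 * (3 * m + 2)) ≤ maxSize n d := by
  have hmr : (3 : ℝ) ≤ m := by exact_mod_cast hm
  have hm1 : (1 : ℝ) ≤ m := by linarith
  have hn : 0 < n := by omega
  have : Nonempty (Fin n) := ⟨⟨0, hn⟩⟩
  obtain ⟨D, hD, hd, hc⟩ := exists_ddc (A := Fin n) m hm (by rw [Fintype.card_fin]; exact hnm) (d / 6)
  have h1 : D.card ≤ maxSize n d := by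
    apply le_csSup (bdd n m hm hnm d)
    exact ⟨D, hD, fun g hg h hh => (hd g hg h hh).trans (by omega), rfl⟩
  have h2 : 1 ≤ maxSize n d := by
    apply le_csSup (bdd n m hm hnm d)
    refine ⟨{1}, ?_, ?_, by simp⟩
    · intro g hg h hh g' _ h' _ hne
      rw [mem_singleton] at hg hh
      exact absurd (hg.trans hh.symm) hne
    · intro g hg h hh
      rw [mem_singleton] at hg hh
      rw [hg, hh]
      simp
  obtain ⟨k, hk⟩ : ∃ k, k = d / 6 := ⟨_, rfl⟩
  rw [← hk] at hc
  obtain ⟨K, hK⟩ : ∃ K, K = m ^ k := ⟨_, rfl⟩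
  rw [← hK] at hc
  have hK1 : 1 ≤ K := by rw [hK]; exact Nat.one_le_pow _ _ (by omega)
  obtain ⟨c, hcd⟩ : ∃ c, c = 2 * (3 * m + 2) := ⟨_, rfl⟩
  rw [← hcd] at hc
  have hc0 : 0 < c := by omega
  obtain ⟨M, hM⟩ : ∃ M, M = maxSize n d := ⟨_, rfl⟩
  rw [← hM] at h1 h2 ⊢
  have h3 : (K - 1) * K < c * (M + 1) := by
    have h4 : (K - 1) * K / c < M + 1 := by omega
    rw [Nat.div_lt_iff_lt_mul hc0] at h4
    rw [mul_comm c]; exact h4
  have h4 : K ^ 2 ≤ 4 * c * M := by
    rcases Nat.eq_or_lt_of_le hK1 with h5 | h5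
    · rw [← h5]
      nlinarith
    · obtain ⟨L, rfl⟩ : ∃ L, K = L + 1 := ⟨K - 1, by omega⟩
      have h6 : 1 ≤ L := by omega
      simp only [Nat.add_sub_cancel] at h3
      nlinarith [Nat.mul_le_mul_left c h2]
  have h5 : (m : ℝ) ^ ((d : ℝ) / 3 - 2) ≤ ((K ^ 2 : ℕ) : ℝ) := by
    rw [hK, ← pow_mul, Nat.cast_pow, ← Real.rpow_natCast]
    apply Real.rpow_le_rpow_of_exponent_le hm1
    have h6 : d ≤ 3 * (k * 2) + 6 := by omega
    have h7 : (d : ℝ) ≤ ((3 * (k * 2) + 6 : ℕ) : ℝ) := by exact_mod_cast h6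
    push_cast at h7 ⊢
    linarith
  have h6 : ((K ^ 2 : ℕ) : ℝ) ≤ ((4 * c * M : ℕ) : ℝ) := by exact_mod_cast h4
  rw [div_le_iff₀ (by positivity)]
  refine (h5.trans h6).trans ?_
  rw [hcd]
  push_cast
  nlinarith

/-- **The order of magnitude of `m(n, d)`.**  For every `n ≥ 2` there is a constant `C` such that for
all `d` the distinct difference configurations of diameter at most `d` in the free group of rank `n`
have bounded size, and their maximal size `m(n, d)` satisfies
`|log_(2n-1) m(n, d) - d / 3| ≤ C`. -/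
theorem result (n : ℕ) (hn : 2 ≤ n) : ∃ C : ℝ, ∀ d : ℕ,
    BddAbove (sizes n d) ∧ |Real.logb (2 * n - 1) (maxSize n d) - d / 3| ≤ C := by
  obtain ⟨m, hm⟩ : ∃ m, m = 2 * n - 1 := ⟨_, rfl⟩
  have hm3 : 3 ≤ m := by omega
  have hnm : 2 * n = m + 1 := by omega
  have hmr : (3 : ℝ) ≤ m := by exact_mod_cast hm3
  have hm1 : (1 : ℝ) < m := by linarith
  have hm0 : (0 : ℝ) < m := by linarith
  have hb : (2 * (n : ℝ) - 1) = m := by
    have : ((2 * n : ℕ) : ℝ) = ((m + 1 : ℕ) : ℝ) := by exact_mod_cast hnm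
    push_cast at this
    linarith
  have hl1 : 0 ≤ Real.logb m (8 * (3 * m + 2)) := Real.logb_nonneg hm1 (by linarith)
  have hl2 : 0 ≤ Real.logb m (4 * (m : ℝ) ^ 2) := Real.logb_nonneg hm1 (by nlinarith)
  refine ⟨2 + Real.logb m (8 * (3 * m + 2)) + Real.logb m (4 * (m : ℝ) ^ 2), fun d => ?_⟩
  refine ⟨bdd n m hm3 hnm d, ?_⟩
  rw [hb]
  have hlow := lower n m hm3 hnm d
  have hmem : maxSize n d ∈ sizes n d := by
    apply Nat.sSup_mem _ (bdd n m hm3 hnm d)
    refine ⟨0, ∅, ?_, ?_, by simp⟩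
    · intro g hg; simp at hg
    · intro g hg; simp at hg
  have hupp := upper n m hm3 hnm d _ hmem
  have hP : 0 < (m : ℝ) ^ ((d : ℝ) / 3 - 2) / (8 * (3 * m + 2)) := by positivity
  have hpos : (0 : ℝ) < maxSize n d := hP.trans_le hlow
  rw [abs_le]
  constructor
  · have h1 := Real.logb_le_logb_of_le hm1 hP hlow
    rw [Real.logb_div (by positivity) (by positivity), Real.logb_rpow hm0 hm1.ne'] at h1
    linarith
  · have h1 := Real.logb_le_logb_of_le hm1 hpos hupp
    rw [Real.logb_mul (by positivity) (by positivity), Real.logb_rpow hm0 hm1.ne'] at h1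
    linarith

end Pool.Agent.Results.MP_db30a9_co.DDCOrder
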